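import Pool.Agent.H286R2.UC.Stubs

/-! Task U7 of h286_tasks (helper862): hidden sharing. -/

set_option autoImplicit false

namespace Pool.Agent.H286R2.UC

open Real Finset Pool.Agent.H117R2 Pool.Agent.H117R2.UC

variable {α : Type*} [DecidableEq α]

namespace U7aux

/-- the reference weight -/
noncomputable def q (θ : ℝ) (J T Y : Finset α) : ℝ :=
  (∏ j ∈ T, (if j ∉ Y then 1 + θ else 1 - θ)) * ∏ j ∈ J \ T, (if j ∈ Y then 1 + θ else 1 - θ)

theorem q_pos {θ : ℝ} (hθ0 : 0 ≤ θ) (hθ1 : θ < 1) (J T Y : Finset α) : 0 < q θ J T Y := by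
  unfold q
  apply mul_pos
  · apply Finset.prod_pos
    intro j _
    split_ifs <;> linarith
  · apply Finset.prod_pos
    intro j _
    split_ifs <;> linarith

theorem sum_q (θ : ℝ) (J Y : Finset α) : ∑ T ∈ J.powerset, q θ J T Y = 2 ^ J.card := by
  have h := Finset.prod_add (fun j => if j ∉ Y then 1 + θ else 1 - θ)
    (fun j => if j ∈ Y then 1 + θ else 1 - θ) J
  unfold q
  rw [← h]
  have h2 : ∀ j ∈ J, ((if j ∉ Y then 1 + θ else 1 - θ) + (if j ∈ Y then 1 + θ else 1 - θ)) = 2 := by
    intro j _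
    by_cases hj : j ∈ Y
    · rw [if_neg (not_not.2 hj), if_pos hj]; ring
    · rw [if_pos hj, if_neg hj]; ring
  rw [Finset.prod_congr rfl h2, Finset.prod_const]

theorem log_q {θ : ℝ} (hθ0 : 0 ≤ θ) (hθ1 : θ < 1) (J T Y : Finset α) :
    log (q θ J T Y) = ∑ j ∈ T, (if j ∉ Y then log (1 + θ) else log (1 - θ)) +
      ∑ j ∈ J \ T, (if j ∈ Y then log (1 + θ) else log (1 - θ)) := by
  unfold q
  have h1 : ∀ j, (if j ∉ Y then 1 + θ else 1 - θ) ≠ 0 := by
    intro j
    split_ifs <;> linarith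
  have h2 : ∀ j, (if j ∈ Y then 1 + θ else 1 - θ) ≠ 0 := by
    intro j
    split_ifs <;> linarith
  rw [Real.log_mul (Finset.prod_ne_zero_iff.2 fun j _ => h1 j)
    (Finset.prod_ne_zero_iff.2 fun j _ => h2 j), Real.log_prod (fun j _ => h1 j),
    Real.log_prod (fun j _ => h2 j)]
  congr 1
  · apply Finset.sum_congr rfl
    intro j _
    split_ifs <;> rfl
  · apply Finset.sum_congr rfl
    intro j _
    split_ifs <;> rfl

theorem gibbs_pt {p q c : ℝ} (hp : 0 ≤ p) (hq : 0 < q) (hc : 0 < c) :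
    negMulLog p + p * log q ≤ p * log c + (q / c - p) := by
  rcases eq_or_lt_of_le hp with h | h
  · rw [← h]
    simp only [negMulLog_zero, zero_mul, zero_add, sub_zero]
    positivity
  · unfold negMulLog
    have h1 : log (q / (p * c)) ≤ q / (p * c) - 1 := Real.log_le_sub_one_of_pos (by positivity)
    have h2 : log (q / (p * c)) = log q - (log p + log c) := by
      rw [Real.log_div hq.ne' (by positivity), Real.log_mul h.ne' hc.ne']
    rw [h2] at h1
    have h3 := mul_le_mul_of_nonneg_left h1 hp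
    have h4 : p * (q / (p * c) - 1) = q / c - p := by
      field_simp
    rw [h4] at h3
    linarith

theorem sum_compl (J : Finset α) (c : α → ℝ) :
    ∑ T ∈ J.powerset, ∑ j ∈ T, c j = ∑ T ∈ J.powerset, ∑ j ∈ J \ T, c j := by
  apply Finset.sum_nbij' (fun T => J \ T) (fun T => J \ T)
  · intro T _
    exact Finset.mem_powerset.2 Finset.sdiff_subset
  · intro T _
    exact Finset.mem_powerset.2 Finset.sdiff_subset
  · intro T hT
    exact Finset.sdiff_sdiff_eq_self (Finset.mem_powerset.1 hT)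
  · intro T hT
    exact Finset.sdiff_sdiff_eq_self (Finset.mem_powerset.1 hT)
  · intro T hT
    rw [Finset.sdiff_sdiff_eq_self (Finset.mem_powerset.1 hT)]

/-- averages of two-valued functions -/
theorem sum_two (F : Finset (Finset α)) (p : Finset α → ℝ) (hp : ∑ Y ∈ F, p Y = 1) (j : α)
    (a b z : ℝ) (hz : ∑ Y ∈ F.filter (fun Y => j ∉ Y), p Y = z) :
    ∑ Y ∈ F, p Y * (if j ∉ Y then a else b) = z * a + (1 - z) * b := by
  have h1 : ∑ Y ∈ F.filter (fun Y => ¬ j ∉ Y), p Y = 1 - z := by
    have := Finset.sum_filter_add_sum_filter_not F (fun Y => j ∉ Y) p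
    rw [hz, hp] at this
    linarith
  rw [← Finset.sum_filter_add_sum_filter_not F (fun Y => j ∉ Y)]
  rw [← h1, ← hz, Finset.sum_mul, Finset.sum_mul]
  congr 1
  · apply Finset.sum_congr rfl
    intro Y hY
    rw [if_pos (Finset.mem_filter.1 hY).2]
  · apply Finset.sum_congr rfl
    intro Y hY
    rw [if_neg (Finset.mem_filter.1 hY).2]

end U7aux

open U7aux in
theorem ST (F : Finset (Finset α)) (hF : UCl F) (hne : F.Nonempty) (lJ lR : List α)
    (hl : (lJ ++ lR).Nodup) (hs : Sep F (lJ ++ lR)) {θ : ℝ} (hθ0 : 0 ≤ θ) (hθ1 : θ < 1) :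
    ∑ T ∈ lJ.toFinset.powerset,
      (chainSum (G2 F T) T (lJ.filter (fun j => j ∉ T) ++ lR) +
        ∑ j ∈ lJ.toFinset \ T, ((F.card : ℝ) * log (1 - θ ^ 2) +
          log ((1 + θ) / (1 - θ)) * ∑ A ∈ F, xv F T j A * (1 - xv F T j A))) ≤ 0 := by
  set J := lJ.toFinset with hJ
  have hc : (0 : ℝ) < F.card := by exact_mod_cast hne.card_pos
  -- entropy
  have hA : ∀ T ∈ J.powerset, chainSum (G2 F T) T (lJ.filter (fun j => j ∉ T) ++ lR) +
      (F.card : ℝ) * log F.card ≤ (F.card : ℝ) * ∑ Y ∈ F, negMulLog (PT F T Y) := by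
    intro T hT
    rw [Finset.mem_powerset] at hT
    have hnd : (lJ.filter (fun j => j ∉ T) ++ lR).Nodup := by
      rw [List.nodup_append'] at hl ⊢
      refine ⟨hl.1.filter _, hl.2.1, ?_⟩
      intro a ha hb
      exact hl.2.2 (List.mem_of_mem_filter ha) hb
    have hd : ∀ j ∈ lJ.filter (fun j => j ∉ T) ++ lR, j ∉ T := by
      intro j hj
      rw [List.mem_append, List.mem_filter] at hj
      rcases hj with hj | hj
      · simpa using hj.2
      · intro hjT
        have h1 := hT hjT
        rw [hJ, List.mem_toFinset] at h1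
        rw [List.nodup_append'] at hl
        exact hl.2.2 h1 hj
    have h1 := Stub.ent_PT F hF hne T _ hnd hd
    have h2 : HH F (T ∪ (lJ.filter (fun j => j ∉ T) ++ lR).toFinset) = 0 := by
      apply Stub.HH_sep (l := lJ ++ lR) _ hs
      intro j hj
      rw [List.mem_toFinset, List.mem_append] at hj
      rw [Finset.mem_union, List.mem_toFinset, List.mem_append, List.mem_filter]
      by_cases hjT : j ∈ T
      · exact Or.inl hjT
      · right
        rcases hj with hj | hj
        · exact Or.inl ⟨hj, by simpa using hjT⟩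
        · exact Or.inr hj
    rw [h2, zero_add] at h1
    exact h1
  -- Gibbs
  have hG : ∑ T ∈ J.powerset, ∑ Y ∈ F, (negMulLog (PT F T Y) + PT F T Y * log (q θ J T Y)) ≤
      2 ^ J.card * log F.card := by
    have h1 : ∀ T ∈ J.powerset, ∀ Y ∈ F,
        negMulLog (PT F T Y) + PT F T Y * log (q θ J T Y) ≤
          PT F T Y * log F.card + (q θ J T Y / F.card - PT F T Y) := fun T _ Y _ =>
      gibbs_pt (Stub.PT_nonneg F T Y) (q_pos hθ0 hθ1 J T Y) hc
    refine (Finset.sum_le_sum fun T hT => Finset.sum_le_sum (h1 T hT)).trans (le_of_eq ?_)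
    have h2 : ∀ T ∈ J.powerset, ∑ Y ∈ F, (PT F T Y * log F.card +
        (q θ J T Y / F.card - PT F T Y)) = log F.card + ((∑ Y ∈ F, q θ J T Y) / F.card - 1) := by
      intro T _
      rw [Finset.sum_add_distrib, Finset.sum_sub_distrib, ← Finset.sum_mul, ← Finset.sum_div,
        Stub.sum_PT F hF hne T, one_mul]
    rw [Finset.sum_congr rfl h2, Finset.sum_add_distrib, Finset.sum_sub_distrib, ← Finset.sum_div,
      Finset.sum_comm, Finset.sum_congr rfl (fun Y _ => sum_q θ J Y)]
    simp only [Finset.sum_const, Finset.card_powerset, nsmul_eq_mul]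
    push_cast
    field_simp
    ring
  -- the linear part
  have hlin : ∀ T ∈ J.powerset, (F.card : ℝ) * ∑ Y ∈ F, PT F T Y * log (q θ J T Y) =
      ∑ j ∈ T, ((M0 F j : ℝ) * log (1 + θ) + ((F.card : ℝ) - M0 F j) * log (1 - θ)) +
      ∑ j ∈ J \ T, (((F.card : ℝ) - ∑ A ∈ F, xv F T j A ^ 2) * log (1 + θ) +
        (∑ A ∈ F, xv F T j A ^ 2) * log (1 - θ)) := by
    intro T hT
    have h1 : ∀ Y ∈ F, PT F T Y * log (q θ J T Y) =
        ∑ j ∈ T, PT F T Y * (if j ∉ Y then log (1 + θ) else log (1 - θ)) +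
        ∑ j ∈ J \ T, PT F T Y * (if j ∉ Y then log (1 - θ) else log (1 + θ)) := by
      intro Y _
      rw [log_q hθ0 hθ1, mul_add, Finset.mul_sum, Finset.mul_sum]
      congr 1
      apply Finset.sum_congr rfl
      intro j _
      by_cases hj : j ∈ Y
      · rw [if_pos hj, if_neg (not_not.2 hj)]
      · rw [if_neg hj, if_pos hj]
    rw [Finset.sum_congr rfl h1, Finset.sum_add_distrib, Finset.sum_comm (s := F) (t := T),
      Finset.sum_comm (s := F) (t := J \ T), mul_add, Finset.mul_sum, Finset.mul_sum]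
    have hav : ∀ j, ∑ Y ∈ F.filter (fun Y => j ∉ Y), PT F T Y =
        (∑ A ∈ F, xv F T j A ^ 2) / F.card := by
      intro j
      rw [eq_div_iff hc.ne', mul_comm]
      exact Stub.PT_avoid F hF hne T j
    congr 1
    · apply Finset.sum_congr rfl
      intro j hj
      rw [sum_two F (PT F T) (Stub.sum_PT F hF hne T) j _ _ _ (hav j)]
      have h2 : ∑ A ∈ F, xv F T j A ^ 2 = (M0 F j : ℝ) := by
        rw [← Stub.sum_xv F T j]
        apply Finset.sum_congr rfl
        intro A _
        exact Stub.xv_sq_of_mem hj A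
      rw [h2]
      field_simp
    · apply Finset.sum_congr rfl
      intro j hj
      rw [sum_two F (PT F T) (Stub.sum_PT F hF hne T) j _ _ _ (hav j)]
      field_simp
      ring
  have hsymm := sum_compl J
    (fun j => (M0 F j : ℝ) * log (1 + θ) + ((F.card : ℝ) - M0 F j) * log (1 - θ))
  have hlin2 : (F.card : ℝ) * ∑ T ∈ J.powerset, ∑ Y ∈ F, PT F T Y * log (q θ J T Y) =
      ∑ T ∈ J.powerset, ∑ j ∈ J \ T, ((F.card : ℝ) * log (1 - θ ^ 2) +
          log ((1 + θ) / (1 - θ)) * ∑ A ∈ F, xv F T j A * (1 - xv F T j A)) := by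
    rw [Finset.mul_sum, Finset.sum_congr rfl hlin, Finset.sum_add_distrib, hsymm,
      ← Finset.sum_add_distrib]
    apply Finset.sum_congr rfl
    intro T _
    rw [← Finset.sum_add_distrib]
    apply Finset.sum_congr rfl
    intro j _
    have h1 : ∑ A ∈ F, xv F T j A * (1 - xv F T j A) =
        (M0 F j : ℝ) - ∑ A ∈ F, xv F T j A ^ 2 := by
      rw [← Stub.sum_xv F T j, ← Finset.sum_sub_distrib]
      apply Finset.sum_congr rfl
      intro A _
      ring
    have h2 : log (1 - θ ^ 2) = log (1 + θ) + log (1 - θ) := by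
      rw [← Real.log_mul (by linarith) (by linarith)]
      congr 1
      ring
    have h3 : log ((1 + θ) / (1 - θ)) = log (1 + θ) - log (1 - θ) := by
      rw [Real.log_div (by linarith) (by linarith)]
    rw [h1, h2, h3]
    ring
  -- conclusion
  rw [Finset.sum_add_distrib, ← hlin2]
  have hA2 := Finset.sum_le_sum hA
  rw [Finset.sum_add_distrib, Finset.sum_const, Finset.card_powerset,
    nsmul_eq_mul, ← Finset.mul_sum] at hA2
  push_cast at hA2
  have hG2 := mul_le_mul_of_nonneg_left hG hc.le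
  rw [Finset.sum_congr rfl (fun T _ => Finset.sum_add_distrib), Finset.sum_add_distrib,
    mul_add] at hG2
  have h5 : (F.card : ℝ) * (2 ^ J.card * log F.card) = 2 ^ J.card * ((F.card : ℝ) * log F.card) := by
    ring
  rw [h5] at hG2
  linarith

end Pool.Agent.H286R2.UC
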